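import Pool.Agent.Helper88.RR.Goals
import Pool.Agent.Helper74.PP.TL

/-! # TL: counting in a class with roughness and divisibility conditions, growing parameters -/

set_option autoImplicit false

open Finset Filter Topology

open scoped Classical

namespace Pool.Agent.Helper64.RR

open Pool.Agent.Helper88.RR
open Pool.Agent.Helper88.PP (pr Rg om Sf SS uu vv ee LA VV QQ NN XX cost nc dd)
open Pool.Agent.Helper74.PP (sw nu_sw crt ap_exists om_pow om_lower M_lower)
open Pool.Agent.Helper90.Twin (nu)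

theorem mem_pr {y z p : ℕ} : p ∈ pr y z ↔ y < p ∧ p ≤ z ∧ p.Prime := by
  rw [pr, mem_filter, mem_Ioc, and_assoc]

theorem prod_swr (y z a q : ℕ) (B : Finset ℕ) (t : ℕ) :
    ∏ p ∈ pr y z, (1 - sw y z a q B p t) =
      if ∀ i ∈ B, Rg y z (a + q * t + i) then (1 : ℝ) else 0 := by
  split_ifs with h
  · refine Finset.prod_eq_one fun p hp => ?_
    rw [sw, if_neg, sub_zero]
    rintro ⟨h1, h2, i, hi, hd⟩
    exact h i hi p hp hd
  · push Not at h
    obtain ⟨i, hi, hR⟩ := h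
    rw [Rg] at hR
    push Not at hR
    obtain ⟨p, hp, hd⟩ := hR
    obtain ⟨h1, h2, h3⟩ := mem_pr.1 hp
    refine Finset.prod_eq_zero hp ?_
    rw [sw, if_pos ⟨h1, h2, i, hi, hd⟩, sub_self]

theorem count_eqr (x y z b : ℕ) (B : Finset ℕ) (d : ℕ → ℕ) (hb : b < QQ x)
    (hd : ∀ i ∈ B, 0 < d i) (hc : ∀ i ∈ B, Nat.Coprime (QQ x) (d i))
    (hcc : ∀ i ∈ B, ∀ j ∈ B, i ≠ j → Nat.Coprime (d i) (d j)) :
    ∃ (N a : ℕ),
      (((NN x b).filter (fun n => ∀ i ∈ B, d i ∣ n + i ∧ Rg y z (n + i))).card : ℝ) =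
        ∑ t ∈ range N, ∏ p ∈ pr y z, (1 - sw y z a (QQ x * ∏ i ∈ B, d i) B p t) ∧
      |(N : ℝ) - XX x / ∏ i ∈ B, (d i : ℝ)| ≤ 1 := by
  have hQ : 0 < QQ x := primorial_pos _
  set q := QQ x * ∏ i ∈ B, d i with hqdef
  have hq0 : 0 < q := Nat.mul_pos hQ (Finset.prod_pos hd)
  obtain ⟨r, hr⟩ := crt (QQ x) b hb B d hd hc hcc
  obtain ⟨a, N, hset, hN⟩ := ap_exists (x / 2) x q r hq0 (Nat.div_le_self _ _)
  refine ⟨N, a, ?_, ?_⟩
  · have h1 : (NN x b).filter (fun n => ∀ i ∈ B, d i ∣ n + i ∧ Rg y z (n + i)) =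
        ((range N).image (fun t => a + q * t)).filter (fun n => ∀ i ∈ B, Rg y z (n + i)) := by
      rw [← hset]
      ext n
      simp only [NN, mem_filter]
      constructor
      · rintro ⟨⟨h1, h2⟩, h3⟩
        exact ⟨⟨h1, (hr n).1 ⟨h2, fun i hi => (h3 i hi).1⟩⟩, fun i hi => (h3 i hi).2⟩
      · rintro ⟨⟨h1, h2⟩, h3⟩
        have h4 := (hr n).2 h2
        exact ⟨⟨h1, h4.1⟩, fun i hi => ⟨h4.2 i hi, h3 i hi⟩⟩
    rw [h1, Finset.card_filter]
    push_cast
    rw [Finset.sum_image]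
    · refine Finset.sum_congr rfl fun t _ => ?_
      rw [prod_swr y z a q B t]
    · intro t _ s _ hts
      have h2 : q * t = q * s := by
        have : a + q * t = a + q * s := hts
        omega
      exact Nat.eq_of_mul_eq_mul_left hq0 h2
  · have h2 : XX x / ∏ i ∈ B, (d i : ℝ) = ((x - x / 2 : ℕ) : ℝ) / (q : ℝ) := by
      rw [XX, hqdef]
      push_cast
      rw [div_div]
    rw [h2]
    exact hN

/-- the sum of the reciprocals of the primes in `(y, z]` -/
theorem sum_pr_le (y z : ℕ) : om y z ≤ Real.exp (-∑ p ∈ pr y z, 1 / (p : ℝ)) := by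
  rw [om, ← Finset.sum_neg_distrib, Real.exp_sum]
  refine Finset.prod_le_prod (fun p hp => ?_) (fun p hp => ?_)
  · have h2 : (2 : ℝ) ≤ p := by exact_mod_cast (mem_pr.1 hp).2.2.two_le
    have : 1 / (p : ℝ) ≤ 1 := by
      rw [div_le_one (by linarith)]
      linarith
    linarith
  · have := Real.add_one_le_exp (-(1 / (p : ℝ)))
    linarith

theorem card_pr_le (y z : ℕ) : (pr y z).card ≤ z := by
  calc (pr y z).card ≤ (Ioc y z).card := card_filter_le _ _
    _ ≤ z := by rw [Nat.card_Ioc]; exact Nat.sub_le _ _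

theorem fact_est (T : ℝ) (n : ℕ) (E : ℝ) (hT0 : 0 ≤ T) (hT : T ≤ E / 2000) (hn : E / 16 ≤ n)
    (hE : 0 ≤ E) : T ^ n / n.factorial ≤ Real.exp (-(E / 8)) := by
  have h1 : (Real.exp 3 * T) ^ n / n.factorial ≤ Real.exp (Real.exp 3 * T) :=
    Real.pow_div_factorial_le_exp (Real.exp 3 * T) (by positivity) n
  have h3 : Real.exp 3 ≤ 21 := by
    have h4 : Real.exp 3 = Real.exp 1 ^ 3 := by
      rw [← Real.exp_nat_mul]
      norm_num
    rw [h4]
    have h5 := Real.exp_one_lt_d9.le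
    calc Real.exp 1 ^ 3 ≤ (2.7182818286 : ℝ) ^ 3 := pow_le_pow_left₀ (Real.exp_pos _).le h5 3
      _ ≤ 21 := by norm_num
  have h6 : T ^ n / n.factorial = Real.exp (-(3 * n)) * ((Real.exp 3 * T) ^ n / n.factorial) := by
    rw [mul_pow, ← Real.exp_nat_mul, mul_div_assoc, ← mul_assoc, ← Real.exp_add]
    rw [show -(3 * (n : ℝ)) + (n : ℝ) * 3 = 0 by ring, Real.exp_zero, one_mul]
  rw [h6]
  calc Real.exp (-(3 * n)) * ((Real.exp 3 * T) ^ n / n.factorial)
      ≤ Real.exp (-(3 * n)) * Real.exp (Real.exp 3 * T) :=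
        mul_le_mul_of_nonneg_left h1 (Real.exp_pos _).le
    _ = Real.exp (-(3 * n) + Real.exp 3 * T) := (Real.exp_add _ _).symm
    _ ≤ Real.exp (-(E / 8)) := by
        apply Real.exp_le_exp.2
        have h7 : Real.exp 3 * T ≤ 21 * (E / 2000) := mul_le_mul h3 hT hT0 (by norm_num)
        linarith

/-- the final estimate -/
theorem final_estr (E k : ℕ) (l P o M N cnt T U La : ℝ) (hE : 2000 ≤ E) (hl : (E : ℝ) ≤ l)
    (hP0 : 0 ≤ P) (hP1 : P ≤ 1) (hPo : P ≤ o)
    (hM : 1 / 2 * Real.exp (65 / 100 * (E * l)) ≤ M) (hN : |N - M| ≤ 1)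
    (hT0 : 0 ≤ T) (hT : T ≤ La) (hLa : La ≤ E / 2000) (ho : Real.exp (-La) ≤ o)
    (hU0 : 0 ≤ U) (hU : 1 + U ≤ Real.exp (2 * l))
    (hcnt : |cnt - N * P| ≤ 2 * N * (T ^ (E / 16 + 1) / (E / 16 + 1).factorial)
      + (1 + U) ^ (E / 16 + 1)) :
    |cnt - M * P| ≤ Real.exp (-(1 / 20 * E)) * (M * o) := by
  have hE' : (2000 : ℝ) ≤ E := by exact_mod_cast hE
  have hl0 : 0 < l := by linarith
  have hr : (E : ℝ) / 16 ≤ ((E / 16 + 1 : ℕ) : ℝ) := by
    have h1 : E ≤ 16 * (E / 16 + 1) := by omega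
    have h2 : (E : ℝ) ≤ 16 * ((E / 16 + 1 : ℕ) : ℝ) := by exact_mod_cast h1
    linarith
  have hr2 : ((E / 16 + 1 : ℕ) : ℝ) ≤ (E : ℝ) / 16 + 1 := by
    have h1 : 16 * (E / 16 + 1) ≤ E + 16 := by omega
    have h2 : 16 * ((E / 16 + 1 : ℕ) : ℝ) ≤ (E : ℝ) + 16 := by exact_mod_cast h1
    linarith
  have hEl : 2000 * l ≤ (E : ℝ) * l := mul_le_mul_of_nonneg_right hE' hl0.le
  have ho0 : 0 < o := lt_of_lt_of_le (Real.exp_pos _) ho
  have hM1 : 1 ≤ M := by
    refine le_trans ?_ hM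
    have := Real.add_one_le_exp (65 / 100 * ((E : ℝ) * l))
    linarith
  rw [abs_le] at hN
  have hN2 : N ≤ 2 * M := by linarith
  have hN0 : 0 ≤ N := by linarith
  -- the first term
  have h1 : T ^ (E / 16 + 1) / (E / 16 + 1).factorial ≤ Real.exp (-((E : ℝ) / 8)) :=
    fact_est T (E / 16 + 1) E hT0 (hT.trans hLa) hr (by positivity)
  have hF0 : 0 ≤ T ^ (E / 16 + 1) / ((E / 16 + 1).factorial : ℝ) := by positivity
  have h2 : 2 * N * (T ^ (E / 16 + 1) / (E / 16 + 1).factorial) ≤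
      4 * M * Real.exp (-((E : ℝ) / 8)) := by
    calc 2 * N * (T ^ (E / 16 + 1) / (E / 16 + 1).factorial)
        ≤ (2 * (2 * M)) * Real.exp (-((E : ℝ) / 8)) := by
          apply mul_le_mul _ h1 hF0 (by positivity)
          linarith
      _ = _ := by ring
  have h3 : 4 * M * Real.exp (-((E : ℝ) / 8)) ≤ 1 / 2 * (Real.exp (-(1 / 20 * E)) * (M * o)) := by
    have h4 : 8 * Real.exp (-((E : ℝ) / 8)) ≤ Real.exp (-(1 / 20 * E)) * Real.exp (-La) := by
      have h5 : (8 : ℝ) ≤ Real.exp 7 := by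
        have := Real.add_one_le_exp (7 : ℝ)
        linarith
      calc 8 * Real.exp (-((E : ℝ) / 8)) ≤ Real.exp 7 * Real.exp (-((E : ℝ) / 8)) :=
            mul_le_mul_of_nonneg_right h5 (Real.exp_pos _).le
        _ = Real.exp (7 + -((E : ℝ) / 8)) := (Real.exp_add _ _).symm
        _ ≤ Real.exp (-(1 / 20 * E) + -La) := Real.exp_le_exp.2 (by linarith)
        _ = _ := Real.exp_add _ _
    have h6 : 8 * Real.exp (-((E : ℝ) / 8)) ≤ Real.exp (-(1 / 20 * E)) * o :=
      h4.trans (mul_le_mul_of_nonneg_left ho (Real.exp_pos _).le)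
    have h7 := mul_le_mul_of_nonneg_left h6 (show 0 ≤ 1 / 2 * M by linarith)
    calc 4 * M * Real.exp (-((E : ℝ) / 8)) = 1 / 2 * M * (8 * Real.exp (-((E : ℝ) / 8))) := by ring
      _ ≤ _ := h7
      _ = _ := by ring
  -- the second term
  have h4 : (1 + U) ^ (E / 16 + 1) ≤ Real.exp ((E : ℝ) / 8 * l + 2 * l) := by
    calc (1 + U) ^ (E / 16 + 1) ≤ Real.exp (2 * l) ^ (E / 16 + 1) :=
          pow_le_pow_left₀ (by linarith) hU _
      _ = Real.exp (((E / 16 + 1 : ℕ) : ℝ) * (2 * l)) := (Real.exp_nat_mul _ _).symm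
      _ ≤ _ := by
        apply Real.exp_le_exp.2
        have := mul_le_mul_of_nonneg_right hr2 (show 0 ≤ 2 * l by linarith)
        linarith
  have h5 : Real.exp ((E : ℝ) / 8 * l + 2 * l) + 1 ≤
      1 / 2 * (Real.exp (-(1 / 20 * E)) * (M * o)) := by
    have h6 : (1 : ℝ) ≤ Real.exp ((E : ℝ) / 8 * l + 2 * l) := Real.one_le_exp (by positivity)
    have h7 : (8 : ℝ) ≤ Real.exp 7 := by
      have := Real.add_one_le_exp (7 : ℝ)
      linarith
    have h8 : 8 * Real.exp ((E : ℝ) / 8 * l + 2 * l) ≤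
        Real.exp (-(1 / 20 * E)) * (Real.exp (65 / 100 * (E * l)) * Real.exp (-La)) := by
      calc 8 * Real.exp ((E : ℝ) / 8 * l + 2 * l)
          ≤ Real.exp 7 * Real.exp ((E : ℝ) / 8 * l + 2 * l) :=
            mul_le_mul_of_nonneg_right h7 (Real.exp_pos _).le
        _ = Real.exp (7 + ((E : ℝ) / 8 * l + 2 * l)) := (Real.exp_add _ _).symm
        _ ≤ Real.exp (-(1 / 20 * E) + (65 / 100 * (E * l) + -La)) :=
            Real.exp_le_exp.2 (by linarith)
        _ = _ := by rw [Real.exp_add, Real.exp_add]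
    have h9 : 1 / 2 * Real.exp (65 / 100 * (E * l)) * Real.exp (-La) ≤ M * o :=
      mul_le_mul hM ho (Real.exp_pos _).le (by linarith)
    have h10 := mul_le_mul_of_nonneg_left h9 (Real.exp_pos (-(1 / 20 * (E : ℝ)))).le
    linarith
  have hNM : |N * P - M * P| ≤ 1 := by
    rw [← sub_mul, abs_mul, abs_of_nonneg hP0]
    have h1 : |N - M| ≤ 1 := abs_le.2 hN
    calc |N - M| * P ≤ 1 * 1 := mul_le_mul h1 hP1 hP0 (by norm_num)
      _ = 1 := one_mul 1
  have htri : |cnt - M * P| ≤ |cnt - N * P| + |N * P - M * P| := by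
    calc |cnt - M * P| = |(cnt - N * P) + (N * P - M * P)| := by
          congr 1; ring
      _ ≤ _ := abs_add_le _ _
  linarith

theorem thr (c2 : ℝ) (hc2 : 0 < c2) : ∃ E0 : ℕ, ∀ E : ℕ, E0 ≤ E → 2000 ≤ E ∧
    9 * (E : ℝ) ^ 4 < Real.exp E ∧ ∀ k : ℕ, k ^ 2 ≤ E →
      (k : ℝ) * Real.log (2 * c2 * E) ≤ E / 2000 := by
  have hA : ∀ᶠ E : ℕ in atTop, 9 * (E : ℝ) ^ 4 < Real.exp E := by
    have h1 := (Real.tendsto_exp_div_pow_atTop 4).comp tendsto_natCast_atTop_atTop
    filter_upwards [h1.eventually_gt_atTop 9, eventually_ge_atTop 1] with E hE hE1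
    have h2 : (0 : ℝ) < (E : ℝ) ^ 4 := by
      have : (0 : ℝ) < E := by exact_mod_cast hE1
      positivity
    simp only [Function.comp_def] at hE
    rwa [lt_div_iff₀ h2] at hE
  have hB : ∀ᶠ E : ℕ in atTop, Real.log (2 * c2 * (E : ℝ)) ^ 2 ≤ E / 4000000 := by
    have h1 : ∀ᶠ u : ℝ in atTop, ‖Real.log u ^ 2‖ ≤ 1 / (8000000 * c2) * ‖id u‖ :=
      (Asymptotics.isLittleO_iff.1 Real.isLittleO_pow_log_id_atTop) (by positivity)
    have h2 : Tendsto (fun E : ℕ => 2 * c2 * (E : ℝ)) atTop atTop :=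
      tendsto_natCast_atTop_atTop.const_mul_atTop (by positivity)
    filter_upwards [h2.eventually h1] with E hE
    have h3 : 0 ≤ 2 * c2 * (E : ℝ) := by positivity
    rw [Real.norm_eq_abs, Real.norm_eq_abs, id, abs_of_nonneg (sq_nonneg _),
      abs_of_nonneg h3] at hE
    refine hE.trans (le_of_eq ?_)
    field_simp
    ring
  obtain ⟨E0, hE0⟩ := eventually_atTop.1 (hA.and (hB.and (eventually_ge_atTop 2000)))
  refine ⟨E0, fun E hE => ?_⟩
  obtain ⟨h1, h2, h3⟩ := hE0 E hE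
  refine ⟨h3, h1, fun k hk => ?_⟩
  have hk' : (k : ℝ) ^ 2 ≤ E := by exact_mod_cast hk
  have h4 : ((k : ℝ) * Real.log (2 * c2 * E)) ^ 2 ≤ ((E : ℝ) / 2000) ^ 2 := by
    rw [mul_pow]
    calc (k : ℝ) ^ 2 * Real.log (2 * c2 * E) ^ 2 ≤ E * (E / 4000000) :=
          mul_le_mul hk' h2 (sq_nonneg _) (Nat.cast_nonneg _)
      _ = _ := by ring
  exact le_of_abs_le (abs_le_of_sq_le_sq h4 (by positivity))

theorem tl (hBO : StmtBO) : StmtTL := by
  obtain ⟨c2, hc2, hom⟩ := om_lower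
  obtain ⟨E0, hE0⟩ := thr c2 hc2
  refine ⟨1 / 20, by norm_num, E0, fun E z x y hE hSr b hb B hBy hBk d hd hdD => ?_⟩
  obtain ⟨hE2, hE3, hE4⟩ := hE0 E hE
  obtain ⟨hz1, hz2, hx1, hx2, hy1, hy2⟩ := hSr
  have hE' : (2000 : ℝ) ≤ E := by exact_mod_cast hE2
  have hz0 : (0 : ℝ) < z := lt_of_lt_of_le (Real.exp_pos _) hz1
  have hzE : (E : ℝ) + 1 ≤ z := (Real.add_one_le_exp (E : ℝ)).trans hz1
  have hz3 : 3 ≤ z := by
    have : (3 : ℝ) ≤ z := by linarith
    exact_mod_cast this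
  set l := Real.log (z : ℝ) with hl
  have hl1 : (E : ℝ) ≤ l := by
    rw [hl, Real.le_log_iff_exp_le hz0]
    exact hz1
  have hl2 : l ≤ 2 * E := by
    rw [hl, Real.log_le_iff_le_exp hz0]
    exact hz2
  have hl3 : 3 ≤ l := by linarith
  have hxz : (z : ℝ) ^ E ≤ x := by exact_mod_cast hx1
  have hx0 : (0 : ℝ) < x := lt_of_lt_of_le (by positivity) hxz
  have hX : (E : ℝ) * l ≤ Real.log x := by
    rw [hl, ← Real.log_pow]
    exact Real.log_le_log (by positivity) hxz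
  have hX2 : Real.log x ≤ E * Real.log ((z : ℝ) + 1) := by
    rw [← Real.log_pow]
    exact Real.log_le_log hx0 (by exact_mod_cast hx2.le)
  have hlz1 : Real.log ((z : ℝ) + 1) ≤ 3 * E := by
    rw [Real.log_le_iff_le_exp (by linarith)]
    have h1 : (z : ℝ) + 1 ≤ 2 * z := by linarith
    have h2 : (2 : ℝ) ≤ Real.exp E := by
      have := Real.add_one_le_exp (E : ℝ)
      linarith
    calc (z : ℝ) + 1 ≤ 2 * z := h1
      _ ≤ Real.exp E * Real.exp (2 * E) := mul_le_mul h2 hz2 hz0.le (Real.exp_pos _).le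
      _ = Real.exp (3 * E) := by
        rw [← Real.exp_add]
        congr 1
        ring
  have hX3 : Real.log x ≤ 3 * (E : ℝ) ^ 2 := by
    refine hX2.trans ?_
    have := mul_le_mul_of_nonneg_left hlz1 (Nat.cast_nonneg E : (0 : ℝ) ≤ E)
    calc (E : ℝ) * Real.log ((z : ℝ) + 1) ≤ E * (3 * E) := this
      _ = _ := by ring
  have hEE : (E : ℝ) * E ≤ E * l := mul_le_mul_of_nonneg_left hl1 (by linarith)
  have hX0 : 0 ≤ Real.log x := by
    have : 0 ≤ (E : ℝ) * E := by positivity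
    linarith
  have hyE : (E : ℝ) * E ≤ y := by linarith
  have hyz : (y : ℝ) < z := by
    calc (y : ℝ) ≤ Real.log x ^ 2 := hy2
      _ ≤ (3 * (E : ℝ) ^ 2) ^ 2 := pow_le_pow_left₀ hX0 hX3 2
      _ = 9 * (E : ℝ) ^ 4 := by ring
      _ < Real.exp E := hE3
      _ ≤ z := hz1
  have hyz' : y < z := by exact_mod_cast hyz
  have hkE : B.card ≤ E := le_trans (Nat.le_self_pow (by norm_num) _) hBk
  have hyE' : E * E ≤ y := by exact_mod_cast hyE
  have hyk : 2 * B.card ≤ y := by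
    have h1 : 2 * E ≤ E * E := Nat.mul_le_mul_right _ (by omega)
    omega
  have hy0 : 1 ≤ y := by
    have h1 : 1 * 1 ≤ E * E := Nat.mul_le_mul (by omega) (by omega)
    omega
  have hpQ : ∀ p : ℕ, p.Prime → p ∣ QQ x → p ≤ y := by
    intro p hp hpd
    have h1 := (Nat.Prime.dvd_primorial_iff hp).1 hpd
    have h2 : (⌊Real.log x / 20⌋₊ : ℝ) ≤ Real.log x / 20 := Nat.floor_le (by positivity)
    have h3 : (p : ℝ) ≤ (⌊Real.log x / 20⌋₊ : ℝ) := by exact_mod_cast h1
    have h4 : (p : ℝ) ≤ y := by linarith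
    exact_mod_cast h4
  constructor
  · intro hcc
    have hd0 : ∀ i ∈ B, 0 < d i := fun i hi => Nat.pos_of_ne_zero (hd i hi).1.ne_zero
    have hc : ∀ i ∈ B, Nat.Coprime (QQ x) (d i) := by
      intro i hi
      by_contra hcon
      obtain ⟨p, hp, h1, h2⟩ := Nat.Prime.not_coprime_iff_dvd.1 hcon
      have h3 := hpQ p hp h1
      have h4 := (hd i hi).2 p hp h2
      omega
    have hq : ∀ p : ℕ, p.Prime → y < p → p ≤ z → ¬ p ∣ QQ x * ∏ i ∈ B, d i := by
      intro p hp hyp hpz hdv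
      rcases (Nat.Prime.dvd_mul hp).1 hdv with h | h
      · have := hpQ p hp h
        omega
      · obtain ⟨i, hi, h2⟩ := (Nat.Prime.prime hp).exists_mem_finset_dvd h
        have h4 := (hd i hi).2 p hp h2
        omega
    obtain ⟨N, a, hcnt, hN⟩ := count_eqr x y z b B d hb hd0 hc hcc
    set q := QQ x * ∏ i ∈ B, d i with hqdef
    set k := B.card with hk
    have hnu : ∀ p ∈ pr y z, ∑ t ∈ range p, sw y z a q B p t = (k : ℝ) := by
      intro p hp
      obtain ⟨h1, h2, h3⟩ := mem_pr.1 hp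
      have h4 := nu_sw y z a q p B h3 hBy (hq p h3)
      rw [nu, if_pos ⟨h1, h2⟩] at h4
      exact h4
    have hBOw := hBO (pr y z) (sw y z a q B) (E / 16) N (fun p hp => (mem_pr.1 hp).2.2)
      (fun p _ t => by
        rw [sw]
        split_ifs <;> norm_num)
      (fun p _ t => by
        rw [sw, sw]
        refine if_congr ?_ rfl rfl
        have h : ∀ i, p ∣ a + q * (t + p) + i ↔ p ∣ a + q * t + i := fun i => by
          rw [show a + q * (t + p) + i = (a + q * t + i) + q * p by ring]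
          exact (Nat.dvd_add_left (dvd_mul_left p q))
        simp only [h])
    rw [← hcnt] at hBOw
    have e1 : ∏ p ∈ pr y z, (1 - (∑ t ∈ range p, sw y z a q B p t) / p) = gg y z k := by
      rw [gg]
      exact Finset.prod_congr rfl fun p hp => by rw [hnu p hp]
    have e2 : ∑ p ∈ pr y z, (∑ t ∈ range p, sw y z a q B p t) / p =
        k * ∑ p ∈ pr y z, 1 / (p : ℝ) := by
      rw [Finset.mul_sum]
      exact Finset.sum_congr rfl fun p hp => by rw [hnu p hp, mul_one_div]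
    have e3 : ∑ p ∈ pr y z, ∑ t ∈ range p, sw y z a q B p t = (pr y z).card * k := by
      rw [Finset.sum_congr rfl hnu, Finset.sum_const, nsmul_eq_mul]
    rw [e1, e2, e3] at hBOw
    have hprod : ∏ i ∈ B, (om y z / (d i : ℝ)) = om y z ^ k / ∏ i ∈ B, (d i : ℝ) := by
      rw [Finset.prod_div_distrib, Finset.prod_const]
    have hprod1 : ∏ i ∈ B, (1 / (d i : ℝ)) = 1 / ∏ i ∈ B, (d i : ℝ) := by
      rw [Finset.prod_div_distrib, Finset.prod_const_one]
    have hDpos : 0 < ∏ i ∈ B, (d i : ℝ) := Finset.prod_pos fun i hi => by exact_mod_cast hd0 i hi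
    have hD : ∏ i ∈ B, (d i : ℝ) ≤ (z : ℝ) ^ (E / 4) := by exact_mod_cast hdD
    have hgoal : XX x * ∏ i ∈ B, (om y z / (d i : ℝ)) =
        XX x / (∏ i ∈ B, (d i : ℝ)) * om y z ^ k := by
      rw [hprod]
      ring
    have hgoal1 : XX x * (gg y z k * ∏ i ∈ B, (1 / (d i : ℝ))) =
        XX x / (∏ i ∈ B, (d i : ℝ)) * gg y z k := by
      rw [hprod1]
      ring
    rw [hgoal, hgoal1]
    have homp := om_pow y z k hy0 hyk
    have hzz := hom y z (by omega)
    have hom0 : 0 < om y z := lt_of_lt_of_le (by positivity) hzz.1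
    have h2cE : 0 < 2 * c2 * (E : ℝ) := by positivity
    -- the logarithm of the density
    have hW1 : Real.exp (-Real.log (2 * c2 * E)) ≤ om y z := by
      rw [Real.exp_neg, Real.exp_log h2cE]
      refine le_trans ?_ hzz.1
      rw [← one_div]
      apply one_div_le_one_div_of_le (by positivity)
      have := mul_le_mul_of_nonneg_left hl2 hc2.le
      linarith
    have hT1 : ∑ p ∈ pr y z, 1 / (p : ℝ) ≤ Real.log (2 * c2 * E) := by
      have h1 := hW1.trans (sum_pr_le y z)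
      have h2 := Real.exp_le_exp.1 h1
      linarith
    have hT0 : 0 ≤ ∑ p ∈ pr y z, 1 / (p : ℝ) := Finset.sum_nonneg fun p _ => by positivity
    refine final_estr E k l (gg y z k) (om y z ^ k) (XX x / ∏ i ∈ B, (d i : ℝ)) N _
      (k * ∑ p ∈ pr y z, 1 / (p : ℝ)) ((pr y z).card * k) (k * Real.log (2 * c2 * E)) hE2 hl1
      homp.2.2 (homp.2.1.trans (pow_le_one₀ hom0.le hzz.2)) homp.2.1
      (M_lower E z x hE2 hl3 hx1 _ hDpos hD) hN (by positivity)
      (mul_le_mul_of_nonneg_left hT1 (Nat.cast_nonneg _)) (hE4 k hBk) ?_ (by positivity) ?_ hBOw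
    · calc Real.exp (-(k * Real.log (2 * c2 * E))) = Real.exp (-Real.log (2 * c2 * E)) ^ k := by
            rw [← Real.exp_nat_mul]
            congr 1
            ring
        _ ≤ _ := pow_le_pow_left₀ (Real.exp_pos _).le hW1 k
    · have h1 : ((pr y z).card : ℝ) ≤ z := by exact_mod_cast card_pr_le y z
      have h2 : (k : ℝ) ≤ E := by exact_mod_cast hkE
      have h3 : ((pr y z).card : ℝ) * k ≤ z * E :=
        mul_le_mul h1 h2 (Nat.cast_nonneg _) hz0.le
      have h4 : Real.exp (2 * l) = (z : ℝ) * z := by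
        rw [two_mul, Real.exp_add, hl, Real.exp_log hz0]
      rw [h4]
      have h5 := mul_le_mul_of_nonneg_left hzE hz0.le
      have h6 : (1 : ℝ) ≤ z := by linarith
      linarith
  · intro hcc
    push Not at hcc
    obtain ⟨i, hi, j, hj, hij, hcop⟩ := hcc
    obtain ⟨p, hp, h1, h2⟩ := Nat.Prime.not_coprime_iff_dvd.1 hcop
    have hzp := (hd i hi).2 p hp h1
    rw [Finset.card_eq_zero, Finset.filter_eq_empty_iff]
    intro n _ hn
    have h3 : p ∣ n + i := h1.trans (hn i hi).1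
    have h4 : p ∣ n + j := h2.trans (hn j hj).1
    have hi1 := mem_Icc.1 (hBy hi)
    have hj1 := mem_Icc.1 (hBy hj)
    rcases lt_or_gt_of_ne hij with h | h
    · have h5 : p ∣ (n + j) - (n + i) := Nat.dvd_sub h4 h3
      have h6 := Nat.le_of_dvd (by omega) h5
      omega
    · have h5 : p ∣ (n + i) - (n + j) := Nat.dvd_sub h3 h4
      have h6 := Nat.le_of_dvd (by omega) h5
      omega


end Pool.Agent.Helper64.RR
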